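import Mathlib
import Pool.Agent.Run7.h804.LV.Main

/-!
# The Fermat-Catalan equation with three bases from one companion Lucas sequence

`V_n = V_n(P, Q)` is the companion Lucas sequence: `V_0 = 2`, `V_1 = P`,
`V_(n+2) = P V_(n+1) - Q V_n`, where `Q = ± 1`, `P ≥ 1` and `P ^ 2 > 4 Q`, so that
`V_n = α ^ n + (Q / α) ^ n` with a real quadratic unit `α > 1` (`P = 1`, `Q = -1`: the Lucas numbers
`1, 3, 4, 7, 11, 18, …`; for `n ≥ 2` `V_n` is the integer nearest to `α ^ n`).  For `P = 2 t`,
`Q = 1` one has `V_n = 2 T_n(t)` with the Chebyshev polynomials `T_n`.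

There is `κ` such that only finitely many value triples `(x ^ p, y ^ q, z ^ r)` come from coprime
solutions of `x ^ p + y ^ q = z ^ r` with exponents `≥ 2` whose bases `x = V_a(P, Q)`,
`y = V_b(P, Q)`, `z = V_c(P, Q)` belong to one such sequence and are at least `(log N) ^ κ`,
`N = max (x, y, z)`.  The parameters `P`, `Q`, the indices `a`, `b`, `c` and the exponents `p`, `q`,
`r` are all free.

Proof.  Linear forms in two `2`-adic logarithms (starting library, Y902, R477) bound the exponents by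
`L = (log N) ^ O(1)`.  The powers are `α ^ (a p) (1 + O(L E))` etc., `E = α ^ (-2 min (a, b, c))`.

* `c r = a p` (the two largest terms are `z ^ r` and `x ^ p`).  Then `a ≠ c`; let `s` be the smaller one
  of `a`, `c`, with exponent `P₁`, and `s + m` the larger one, with exponent `P₂ < P₁`.  The difference
  of the two powers shows `α ^ k = P₁ - P₂ δ ^ m + O(L ^ 2 E)`, `δ = Q / α ^ 2`, with an integer
  `k ≥ 1`.  The conjugate of `α ^ k - P₁ + P₂ δ ^ m` has absolute value at most `3 L α ^ (2 m)`, so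
  the equality is exact if `α ^ (2 m)` is smaller than a power of `L`, and conjugation gives
  `P₂ α ^ (2 m) ≤ P₁ + 1`, in contradiction to `s P₁ = (s + m) P₂`.  For larger `m` the same argument
  without the last term gives `α ^ k = P₁`, which is impossible.
* `c r > a p`.  Then `α` is the golden ratio `φ` and, as `φ ^ 2 = φ + 1`, `a p = b q + 1`,
  `c r = b q + 2`.  The terms of second order give
  `± φ ^ 2 r φ ^ (-2 c) ± φ p φ ^ (-2 a) ± q φ ^ (-2 b) = O(L ^ 2 E ^ 2)`, which contradicts the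
  relations between the indices and the exponents in all orders of `a`, `b`, `c` (the critical
  order is `a = b + 1`, `c = b + 2`, where the equality `φ ^ (-1) + φ ^ (-2) = 1` is used again).
-/

set_option autoImplicit false

namespace Pool.Agent.Results.MP_509488_nt.CompanionLucas

/-- the companion Lucas sequence `V_n(P, Q)` -/
def V (P Q : ℤ) : ℕ → ℤ
  | 0 => 2
  | 1 => P
  | (n + 2) => P * V P Q (n + 1) - Q * V P Q n

lemma V_eq (P Q : ℤ) (n : ℕ) : V P Q n = Pool.Agent.Run7.h804.LV.V P Q n := by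
  induction n using Nat.strong_induction_on with
  | _ n ih =>
    rcases n with _ | _ | n
    · simp [V, Pool.Agent.Run7.h804.LV.V]
    · simp [V, Pool.Agent.Run7.h804.LV.V]
    · rw [V, Pool.Agent.Run7.h804.LV.V, ih (n + 1) (by omega), ih n (by omega)]

/-- **Solutions with three bases from one companion Lucas sequence**: they are finite in number
(counted by their value triples) if the bases are at least `(log N) ^ κ`. -/
theorem result : ∃ κ : ℕ, {v : ℕ × ℕ × ℕ | ∃ (P Q : ℤ) (a b c x y z p q r : ℕ),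
    0 < P ∧ (Q = 1 ∨ Q = -1) ∧ 4 * Q < P ^ 2 ∧
    (x : ℤ) = V P Q a ∧ (y : ℤ) = V P Q b ∧ (z : ℤ) = V P Q c ∧
    Nat.Coprime x y ∧ Nat.Coprime x z ∧ Nat.Coprime y z ∧ 2 ≤ p ∧ 2 ≤ q ∧ 2 ≤ r ∧
    x ^ p + y ^ q = z ^ r ∧ v = (x ^ p, y ^ q, z ^ r) ∧
    Real.log (max x (max y z) : ℕ) ^ κ ≤ (min x (min y z) : ℕ)}.Finite := by
  obtain ⟨κ, h⟩ := Pool.Agent.Run7.h804.LV.main
  refine ⟨κ, h.subset ?_⟩
  rintro v ⟨P, Q, a, b, c, x, y, z, p, q, r, hP, hQ, hD, hx, hy, hz, rest⟩
  exact ⟨P, Q, a, b, c, x, y, z, p, q, r, hP, hQ, hD, by rw [hx, V_eq], by rw [hy, V_eq],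
    by rw [hz, V_eq], rest⟩

end Pool.Agent.Results.MP_509488_nt.CompanionLucas
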