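import Mathlib
import Pool.Agent.Run7.h403.FC

/-!
# The Fermat-Catalan equation at the convergents of almost every real number

`Bases A B` says that the integers `A`, `B` are coprime and, up to signs, two of the three bases of a solution
`A ^ x + B ^ y = C ^ z`, `A ^ x + C ^ z = B ^ y` or `B ^ y + C ^ z = A ^ x` with `x, y, C ≥ 1`, `z ≥ 2`. All three
exponents and the third base are free.

1. Let `ψ ≥ 0` be nondecreasing with `∑ ψ(q) / (q (log q) ^ 2) < ∞`, for instance `ψ(q) = (log q) ^ (1 - ε)`, and let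
   `γ` be real. For almost all real numbers `α` only finitely many of the inhomogeneous approximations `(p, q)` with
   `|q α - p - γ| ≤ ψ(q) / q` are mapped to two bases of a solution by some given pair of independent integral linear
   forms `(a p + b q, c p + d q)`.
2. For almost all `α` all convergents `p_n / q_n` of the continued fraction of `α` with `n ≥ n₀` are such
   that `p_n`, `q_n` are not two bases of a solution, and the same is true for all pairs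
   `(a p_n + b q_n, c p_n + d q_n)`, `a d ≠ b c`, with `n ≥ n₀(α, a, b, c, d)`.
3. For almost all `α` two consecutive denominators `q_n`, `q_(n + 1)` with `n ≥ n₀(α)` are not two bases.
4. There is an absolute `δ > 0` such that for every order `τ ≥ 0` the numbers `α` which have infinitely many approximations
   `|q α - p - γ| ≤ κ q ^ (-τ)` such that `a p + b q` and `c p + d q` are bases of a solution in which the product of
   the two bases has a prime factor `≤ q ^ (1/41)`, or in which `min (x, y) ≤ exp ((log q) ^ K)`, form a set of Hausdorff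
   dimension at most `(2 - δ) / (1 + τ)`. (By Jarník and Besicovitch the dimension is `2 / (1 + τ)`, `τ ≥ 1`, without
   the condition on bases.)

The numbers of pairs of bases in boxes are estimated by the starting library (`Pool.Agent.Y353.PS`, arithmetic large
sieve, linear forms in logarithms and a gap principle).
-/

set_option autoImplicit false

namespace Pool.Agent.Results.MP_509488_nt.Convergents

open Filter MeasureTheory

/-- `(x, y, z, C)` is a solution with the bases `A` and `B` -/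
def Solves (A B x y z C : ℕ) : Prop :=
  0 < x ∧ 0 < y ∧ 2 ≤ z ∧ 0 < C ∧
    (A ^ x + B ^ y = C ^ z ∨ A ^ x + C ^ z = B ^ y ∨ B ^ y + C ^ z = A ^ x)

/-- the coprime integers `A`, `B` are (up to signs) two of the bases of a solution -/
def Bases (A B : ℤ) : Prop :=
  IsCoprime A B ∧ ∃ x y z C : ℕ, Solves A.natAbs B.natAbs x y z C

/-- the same with the restriction that the product of the bases has a prime factor at most `q ^ (1/41)`, or one of the
two exponents is at most `exp ((log q) ^ K)` -/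
def SmallBases (A B : ℤ) (q K : ℕ) : Prop :=
  IsCoprime A B ∧ ∃ x y z C : ℕ, Solves A.natAbs B.natAbs x y z C ∧
    ((∃ r : ℕ, r.Prime ∧ (r : ℝ) ≤ (q : ℝ) ^ (1 / 41 : ℝ) ∧ r ∣ A.natAbs * B.natAbs) ∨
      ((min x y : ℕ) : ℝ) ≤ Real.exp (Real.log q ^ K))

theorem result :
    (∀ (γ : ℝ) (ψ : ℕ → ℝ), Monotone ψ → (∀ n, 0 ≤ ψ n) →
      Summable (fun n : ℕ => ψ n / (n * Real.log n ^ 2)) →
      ∀ᵐ α : ℝ, ∀ a b c d : ℤ, a * d - b * c ≠ 0 →
        {t : ℤ × ℕ | 0 < t.2 ∧ |t.2 * α - t.1 - γ| ≤ ψ t.2 / t.2 ∧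
          Bases (a * t.1 + b * t.2) (c * t.1 + d * t.2)}.Finite) ∧
    (∀ᵐ α : ℝ, ∀ a b c d : ℤ, a * d - b * c ≠ 0 → ∀ᶠ n : ℕ in atTop,
      ¬ Bases (a * (α.convergent n).num + b * (α.convergent n).den)
        (c * (α.convergent n).num + d * (α.convergent n).den)) ∧
    (∀ᵐ α : ℝ, ∀ᶠ n : ℕ in atTop, ¬ Bases ((α.convergent n).den) ((α.convergent (n + 1)).den)) ∧
    (∃ δ : ℝ, 0 < δ ∧ ∀ γ τ : ℝ, 0 ≤ τ →
      dimH {α : ℝ | ∃ (a b c d : ℤ) (K : ℕ) (κ : ℝ), a * d - b * c ≠ 0 ∧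
        {t : ℤ × ℕ | 0 < t.2 ∧ |t.2 * α - t.1 - γ| ≤ κ * (t.2 : ℝ) ^ (-τ) ∧
          SmallBases (a * t.1 + b * t.2) (c * t.1 + d * t.2) t.2 K}.Infinite} ≤
        ENNReal.ofReal ((2 - δ) / (1 + τ))) := by
  have hbases : ∀ a b c d : ℤ, a * d - b * c ≠ 0 → ∀ K : ℕ, ∃ (C : ℝ) (j₀ : ℕ), ∀ j : ℕ, j₀ ≤ j →
      (((Run7.h403.Met.blk {t : ℤ × ℕ | Bases (a * t.1 + b * t.2) (c * t.1 + d * t.2)} K j).ncard : ℕ) : ℝ) ≤
        C * (4 ^ j / (j : ℝ) ^ 2) := by
    intro a b c d hdet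
    refine Run7.h403.Met.blk_forms hdet _
      (fun _ => {p : ℕ × ℕ | Nat.Coprime p.1 p.2 ∧ Pool.Agent.Y353.PS.SolP p.1 p.2})
      (fun j => 4 ^ j / (j : ℝ) ^ 2) Run7.h403.FC.box_log ⟨0, fun j _ t ht _ _ => ?_⟩
    obtain ⟨h1, x, y, z, C, h2⟩ := ht
    exact ⟨h1, Int.isCoprime_iff_gcd_eq_one.1 h1, x, y, z, C, h2⟩
  refine ⟨?_, ?_, ?_, ?_⟩
  · intro γ ψ hm h0 hs
    rw [ae_all_iff]
    intro a
    rw [ae_all_iff]
    intro b
    rw [ae_all_iff]
    intro c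
    rw [ae_all_iff]
    intro d
    rw [eventually_imp_distrib_left]
    intro hdet
    have h := Run7.h403.Met.ae_finite {t : ℤ × ℕ | Bases (a * t.1 + b * t.2) (c * t.1 + d * t.2)} (fun K => by
      obtain ⟨C, j₀, h⟩ := hbases a b c d hdet K
      exact ⟨C, j₀, fun j hj => (h j hj).trans_eq (by ring)⟩) γ hm h0 hs
    filter_upwards [h] with α hα
    refine hα.subset ?_
    rintro t ⟨h1, h2, h3⟩
    exact ⟨h3, h1, h2⟩
  · rw [ae_all_iff]
    intro a
    rw [ae_all_iff]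
    intro b
    rw [ae_all_iff]
    intro c
    rw [ae_all_iff]
    intro d
    rw [eventually_imp_distrib_left]
    intro hdet
    exact Run7.h403.Met.ae_conv {t : ℤ × ℕ | Bases (a * t.1 + b * t.2) (c * t.1 + d * t.2)} (hbases a b c d hdet)
  · have h := Run7.h403.Met.ae_den {p : ℕ × ℕ | Nat.Coprime p.1 p.2 ∧ Pool.Agent.Y353.PS.SolP p.1 p.2} (by
      obtain ⟨C, j₀, h⟩ := Run7.h403.FC.box_log 2
      exact ⟨C, j₀, h⟩)
    filter_upwards [h] with α hα
    filter_upwards [hα] with n hn hb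
    apply hn
    obtain ⟨h1, x, y, z, C, h2⟩ := hb
    rw [Int.natAbs_natCast, Int.natAbs_natCast] at h2
    exact ⟨Nat.isCoprime_iff_coprime.1 h1, x, y, z, C, h2⟩
  · obtain ⟨η, hη0, hη1, hbox⟩ := Run7.h403.FC.box_pow
    refine ⟨η, hη0, fun γ τ hτ => ?_⟩
    have hsub : {α : ℝ | ∃ (a b c d : ℤ) (K : ℕ) (κ : ℝ), a * d - b * c ≠ 0 ∧
        {t : ℤ × ℕ | 0 < t.2 ∧ |t.2 * α - t.1 - γ| ≤ κ * (t.2 : ℝ) ^ (-τ) ∧
          SmallBases (a * t.1 + b * t.2) (c * t.1 + d * t.2) t.2 K}.Infinite} ⊆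
        ⋃ s : {s : (ℤ × ℤ) × (ℤ × ℤ) × ℕ // s.1.1 * s.2.1.2 - s.1.2 * s.2.1.1 ≠ 0},
          {α : ℝ | ∃ κ : ℝ, {t : ℤ × ℕ | t ∈ {t : ℤ × ℕ | SmallBases (s.1.1.1 * t.1 + s.1.1.2 * t.2)
            (s.1.2.1.1 * t.1 + s.1.2.1.2 * t.2) t.2 s.1.2.2} ∧ 0 < t.2 ∧
            |t.2 * α - t.1 - γ| ≤ κ * (t.2 : ℝ) ^ (-τ)}.Infinite} := by
      rintro α ⟨a, b, c, d, K, κ, hdet, hinf⟩
      refine Set.mem_iUnion.2 ⟨⟨((a, b), (c, d), K), hdet⟩, κ, hinf.mono ?_⟩
      rintro t ⟨h1, h2, h3⟩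
      exact ⟨h3, h1, h2⟩
    refine (dimH_mono hsub).trans ?_
    rw [dimH_iUnion]
    refine iSup_le fun s => ?_
    obtain ⟨⟨⟨a, b⟩, ⟨c, d⟩, K⟩, hdet⟩ := s
    simp only at hdet ⊢
    obtain ⟨j₁, hj₁⟩ := Run7.h403.FC.thresholds K
    refine Run7.h403.Met.dim_finite _ hη0.le hη1 hτ ?_ γ
    refine Run7.h403.Met.blk_forms hdet _ (fun j => Run7.h403.FC.Sm (K + 1) j)
      (fun j => ((2 : ℝ) ^ j) ^ (2 - η)) (hbox (K + 1)) ⟨j₁, fun j hj t ht hq1 hq2 => ?_⟩
    obtain ⟨h1, x, y, z, C, ⟨g1, g2, g3, g4, g5⟩, h3⟩ := ht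
    obtain ⟨e1, e2⟩ := hj₁ j hj t.2 hq1 hq2
    refine ⟨h1, Int.isCoprime_iff_gcd_eq_one.1 h1, x, y, z, C, g1, g2, g3, g4, g5, ?_⟩
    rcases h3 with ⟨r, hr1, hr2, hr3⟩ | h3
    · exact Or.inl ⟨r, hr1, hr2.trans e1, hr3⟩
    · exact Or.inr (h3.trans (Real.exp_le_exp.2 e2))

end Pool.Agent.Results.MP_509488_nt.Convergents
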