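import Mathlib
import Pool.Agent.Run7.h662.FCS.Main

/-!
# The Fermat-Catalan equation with two bases in arbitrary well distributed families of pairs

Two coprime positive integers `u`, `v` are called *two bases up to `W`* if there are a third base
`w ≤ W` and exponents `p, q, r ≥ 2` (`r ≥ 3` if `p` and `q` are even) with `u ^ p + v ^ q = w ^ r`,
`u ^ p + w ^ r = v ^ q` or `v ^ q + w ^ r = u ^ p`. In each solution of the equation of the problem any
two of the three bases are such a pair, `W` being the third base.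

* Criterion. For all `A` and `θ > 0` there is `κ > 0` with the following property. Let there be given,
  for each `N`, a finite family of pairs `(x_i, y_i)` of integers up to `N ^ A`, such that for some
  constants `C` and `Q` and for every `M` prime to `Q`, every pair of residue classes modulo `M` contains,
  for all large `N`, at most the proportion `C / M ^ 2` of the pairs, and such that no pair occurs more
  often than `N ^ (-θ)` times the size of the family. Then for one hundred per cent of the indices `i` the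
  pair `(x_i, y_i)` is not a pair of two bases up to `exp (N ^ κ)`.
* Both bases in sparse sets: the conclusion holds for one hundred per cent of the pairs in `S × T` if no
  residue class modulo `M` contains more than the proportion `C / M` of `S`, or of `T`, and if
  `|S| |T| ≥ N ^ θ`.
* Missing digits: this applies to the integers up to `N` all of whose digits in base `b` lie in `D`, and
  the integers up to `N` all of whose digits in base `b'` lie in `D'`, for any bases `b`, `b'` and any sets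
  `D`, `D'` of at least two digits.
* Digit reversal: for one hundred per cent of the integers `n` up to `N` all of whose digits in base `b`
  lie in `D` (with at least two digits in `D`; for instance all integers up to `N`) the number `n` and the
  number with the reversed sequence of digits are not two bases up to `exp (N ^ κ)`.
* Beatty sequences: the same holds for `n` and `⌊α n + β⌋` for irrational `α > 0`, with an absolute
  constant `κ`.

Proof. The theorem on lopsided pairs (`MP_509488_nt.LopsidedPairs` of the starting library) leaves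
`N ^ (θ / 2)` pairs for large `r`. For small `r` the residue sieve of the starting library
(`Pool.Agent.H374R2`, `Pool.Agent.N666.VE.Cls`) is carried out with moduli prime to `Q`. The digits are
treated by exponential sums which are products, and the Beatty sequences by the density of the
multiples of `α` modulo one.
-/

set_option autoImplicit false

namespace Pool.Agent.Results.MP_509488_nt.SpreadFamilies

open Filter

/-- `x` and `y` are coprime and two of the three bases of a solution with a third base at most `W`. -/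
def TwoBases (W : ℝ) (x y : ℕ) : Prop := ∃ z p q r : ℕ, 1 ≤ x ∧ 1 ≤ y ∧ Nat.Coprime x y ∧ 1 ≤ z ∧
  (z : ℝ) ≤ W ∧ 2 ≤ p ∧ 2 ≤ q ∧ 2 ≤ r ∧ (3 ≤ r ∨ ¬ 2 ∣ p ∨ ¬ 2 ∣ q) ∧
  (x ^ p + y ^ q = z ^ r ∨ x ^ p + z ^ r = y ^ q ∨ y ^ q + z ^ r = x ^ p)

/-- For each `M` prime to `Q` and all large `N` every residue class modulo `M` contains at most the
proportion `C / M` of the elements of `S N`. -/
def Spread (Q : ℕ) (C : ℝ) (S : ℕ → Finset ℕ) : Prop :=
  ∀ M : ℕ, 1 ≤ M → M.Coprime Q → ∀ᶠ N : ℕ in atTop, ∀ a : ℕ,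
    ({n ∈ S N | n % M = a}.card : ℝ) ≤ C * (S N).card / M

/-- The integers up to `N` all of whose digits in base `b` lie in `D`. -/
def digitSet (b : ℕ) (D : Finset ℕ) (N : ℕ) : Finset ℕ :=
  {n ∈ Finset.range (N + 1) | ∀ d ∈ Nat.digits b n, d ∈ D}

/-- The number whose sequence of digits in base `b` is that of `n`, reversed. -/
def reverse (b n : ℕ) : ℕ := Nat.ofDigits b (Nat.digits b n).reverse

theorem result :
    -- each solution of the equation of the problem gives three pairs of two bases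
    (∀ x y z p q r : ℕ, 1 ≤ x → 1 ≤ y → 1 ≤ z → Nat.Coprime x y → Nat.Coprime x z → Nat.Coprime y z →
      p.Prime → q.Prime → r.Prime → (1 : ℚ) / p + 1 / q + 1 / r ≤ 1 → x ^ p + y ^ q = z ^ r →
      TwoBases z x y ∧ TwoBases y x z ∧ TwoBases x y z) ∧
    -- the criterion
    (∀ (A : ℕ) (θ : ℝ), 0 < θ → ∃ κ : ℝ, 0 < κ ∧
      ∀ (ι : Type) (s : ℕ → Finset ι) (x y : ℕ → ι → ℕ) (C : ℝ) (Q : ℕ), 0 < C → 0 < Q →
        (∀ M : ℕ, 1 ≤ M → M.Coprime Q → ∀ᶠ N : ℕ in atTop, ∀ a b : ℕ,
          ({i ∈ s N | x N i % M = a ∧ y N i % M = b}.card : ℝ) ≤ C * (s N).card / (M : ℝ) ^ 2) →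
        (∀ᶠ N : ℕ in atTop, ∀ i ∈ s N, x N i ≤ N ^ A ∧ y N i ≤ N ^ A) →
        (∀ᶠ N : ℕ in atTop, ∀ a b : ℕ,
          ({i ∈ s N | x N i = a ∧ y N i = b}.card : ℝ) ≤ (N : ℝ) ^ (-θ) * (s N).card) →
        ∀ ε : ℝ, 0 < ε → ∀ᶠ N : ℕ in atTop,
          ({i : ι | i ∈ s N ∧ TwoBases (Real.exp ((N : ℝ) ^ κ)) (x N i) (y N i)}.ncard : ℝ) ≤
            ε * (s N).card) ∧
    -- two sparse sets
    (∀ (A : ℕ) (θ : ℝ), 0 < θ → ∃ κ : ℝ, 0 < κ ∧
      ∀ (S T : ℕ → Finset ℕ) (C C' : ℝ) (Q : ℕ), 0 < C → 0 < C' → 0 < Q →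
        Spread Q C S → Spread Q C' T →
        (∀ᶠ N : ℕ in atTop, (∀ n ∈ S N, n ≤ N ^ A) ∧ ∀ n ∈ T N, n ≤ N ^ A) →
        (∀ᶠ N : ℕ in atTop, (N : ℝ) ^ θ ≤ (S N).card * (T N).card) →
        ∀ ε : ℝ, 0 < ε → ∀ᶠ N : ℕ in atTop,
          ({v : ℕ × ℕ | v.1 ∈ S N ∧ v.2 ∈ T N ∧
            TwoBases (Real.exp ((N : ℝ) ^ κ)) v.1 v.2}.ncard : ℝ) ≤
            ε * ((S N).card * (T N).card)) ∧
    -- missing digits
    (∀ b b' : ℕ, 2 ≤ b → 2 ≤ b' → ∃ κ : ℝ, 0 < κ ∧
      ∀ D D' : Finset ℕ, D ⊆ Finset.range b → D' ⊆ Finset.range b' → 2 ≤ D.card → 2 ≤ D'.card →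
        ∀ ε : ℝ, 0 < ε → ∀ᶠ N : ℕ in atTop,
          ({v : ℕ × ℕ | v.1 ∈ digitSet b D N ∧ v.2 ∈ digitSet b' D' N ∧
            TwoBases (Real.exp ((N : ℝ) ^ κ)) v.1 v.2}.ncard : ℝ) ≤
            ε * ((digitSet b D N).card * (digitSet b' D' N).card)) ∧
    -- digit reversal
    (∀ b : ℕ, 2 ≤ b → ∃ κ : ℝ, 0 < κ ∧
      ∀ D : Finset ℕ, D ⊆ Finset.range b → 2 ≤ D.card → ∀ ε : ℝ, 0 < ε → ∀ᶠ N : ℕ in atTop,
        ({n : ℕ | n ∈ digitSet b D N ∧
          TwoBases (Real.exp ((N : ℝ) ^ κ)) n (reverse b n)}.ncard : ℝ) ≤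
          ε * (digitSet b D N).card) ∧
    -- Beatty sequences
    (∃ κ : ℝ, 0 < κ ∧ ∀ α β : ℝ, Irrational α → 0 < α → ∀ ε : ℝ, 0 < ε → ∀ᶠ N : ℕ in atTop,
      ({n : ℕ | 1 ≤ n ∧ n ≤ N ∧
        TwoBases (Real.exp ((N : ℝ) ^ κ)) n ⌊α * n + β⌋₊}.ncard : ℝ) ≤ ε * N) := by
  refine ⟨?_, fun A θ hθ => ?_, fun A θ hθ => ?_, fun b b' hb hb' => ?_, fun b hb => ?_, ?_⟩
  · intro x y z p q r hx hy hz hxy hxz hyz hp hq hr h1 h
    have key : ∀ a b c : ℕ, a.Prime → b.Prime → c.Prime → (1 : ℚ) / a + 1 / b + 1 / c ≤ 1 →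
        (3 ≤ c ∨ ¬ 2 ∣ a ∨ ¬ 2 ∣ b) := by
      intro a b c ha hb hc habc
      by_contra hcon
      push Not at hcon
      obtain ⟨h3, h4, h5⟩ := hcon
      have e1 : a = 2 := ((Nat.prime_dvd_prime_iff_eq Nat.prime_two ha).1 h4).symm
      have e2 : b = 2 := ((Nat.prime_dvd_prime_iff_eq Nat.prime_two hb).1 h5).symm
      have hc0 : (0 : ℚ) < 1 / c := by
        have := hc.pos
        positivity
      rw [e1, e2] at habc
      push_cast at habc
      linarith
    refine ⟨⟨z, p, q, r, hx, hy, hxy, hz, le_rfl, hp.two_le, hq.two_le, hr.two_le,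
      key p q r hp hq hr h1, Or.inl h⟩, ⟨y, p, r, q, hx, hz, hxz, hy, le_rfl, hp.two_le, hr.two_le,
      hq.two_le, key p r q hp hr hq (by linarith), Or.inr (Or.inl h)⟩,
      ⟨x, q, r, p, hy, hz, hyz, hx, le_rfl, hq.two_le, hr.two_le, hp.two_le,
      key q r p hq hr hp (by linarith), Or.inr (Or.inl (by rw [add_comm]; exact h))⟩⟩
  · obtain ⟨κ, hκ, h⟩ := Pool.Agent.Run7.h662.FCS.crit' A θ hθ
    exact ⟨κ, hκ, fun ι s x y C Q hC hQ H1 H2 H3 => h s x y C Q hC hQ H1 H2 H3⟩
  · exact Pool.Agent.Run7.h662.FCS.sparse A θ hθ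
  · exact Pool.Agent.Run7.h662.FCS.missing b b' hb hb'
  · exact Pool.Agent.Run7.h662.FCS.reversal b hb
  · exact Pool.Agent.Run7.h662.FCS.beatty

end Pool.Agent.Results.MP_509488_nt.SpreadFamilies
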