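import Pool.Agent.Run7.h430.TW.FC
import Pool.Agent.N760.IT.C

/-!
# The Fermat-Catalan equation and the members of almost all orbits of Euler's function

Let `φ_k` be the `k`-th iterate of Euler's function, `φ_0(m) = m`. Let `f` be a positive multiplicative function of at most
polynomial growth such that `f p ≤ M p` for the large primes `p`, with different values at different large primes; for example
the identity, Euler's function or the sum of the divisors. Let `G` have steps bounded below by a positive constant and growth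
at most `v^d`; for example `G v = α v^d` with `α > 0`.

1. For all `A > 0`, all `d ≥ 1` and all `κ < 1` there is `R` such that for all these `f`, `G` there is `K(m)` tending to
   infinity such that for almost all `m`, for all `k ≤ K(m)`, with `v = f(φ_k(m))`: NO integer `D` within `v^κ` of `G v` divides
   the product of the terms of an equation `a x^l + b y^n = c z^r ≤ D^A` between positive integers (coprime or not), where ALL
   the exponents `l, n, r ≥ 2` vary, one of them is at least `R`, and the radicals of `a`, `b`, `c` are at most `D^(1/R)`.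
2. If the theorem of Darmon and Granville (1995) on the equations with fixed exponents is granted: no integer `D` within `v^κ`
   of `G v` divides the product `x^p y^q z^r` of the terms of ANY coprime solution `x^p + y^q = z^r ≤ D^A` with
   `1/p + 1/q + 1/r < 1`.
3. If `5 d / 6 + κ < 1`: no integer `z` within `v^κ` of `G v` is the third base of a coprime solution of
   `x^p + y^p = z^r` with primes `p`, `r`, `2/p + 1/r ≤ 1`.

The iterates of Euler's function are not multiplicative, their values form a thin set and are taken with very large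
multiplicities, so this does not follow from the counts of the exceptional divisors and bases. Proof: the counts of the
starting files (`R437/FC/Count`, used for `SolutionsNearPowers`, and `TH863`, used for `SumPowerSaving`, of this problem), and the
tool `N760/IT` of the starting files.
-/

set_option autoImplicit false

namespace Pool.Agent.Results.MP_509488_nt.TotientOrbits

open Finset Filter Topology

/-- the product of the primes dividing `n` -/
def rad (n : ℕ) : ℕ := ∏ p ∈ n.primeFactors, p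

/-- `D` divides the product of the terms of an equation `a x ^ l + b y ^ n = c z ^ r` between positive integers,
`l, n, r ≥ 2`, such that one of the exponents is at least `R`, the radicals of the coefficients are at most `D ^ (1 / R)` and
`c z ^ r ≤ D ^ A`. -/
def Hit (R : ℕ) (A : ℝ) (D : ℕ) : Prop :=
  ∃ a b c x y z l n r : ℕ, (0 < a ∧ 0 < b ∧ 0 < c ∧ 0 < x ∧ 0 < y ∧ 0 < z) ∧
    (2 ≤ l ∧ 2 ≤ n ∧ 2 ≤ r) ∧ (R ≤ l ∨ R ≤ n ∨ R ≤ r) ∧
    ((rad a : ℝ) ≤ (D : ℝ) ^ (1 / (R : ℝ)) ∧ (rad b : ℝ) ≤ (D : ℝ) ^ (1 / (R : ℝ)) ∧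
      (rad c : ℝ) ≤ (D : ℝ) ^ (1 / (R : ℝ))) ∧
    a * x ^ l + b * y ^ n = c * z ^ r ∧ D ∣ (a * x ^ l) * (b * y ^ n) * (c * z ^ r) ∧
    ((c * z ^ r : ℕ) : ℝ) ≤ (D : ℝ) ^ A

/-- `D` divides the product of the terms of a coprime solution `x ^ p + y ^ q = z ^ r ≤ D ^ A`, `1/p + 1/q + 1/r < 1`. -/
def DividesSolution (A : ℝ) (D : ℕ) : Prop :=
  ∃ x y z p q r : ℕ, 0 < x ∧ 0 < y ∧ 0 < z ∧ Nat.gcd x (Nat.gcd y z) = 1 ∧ 2 ≤ p ∧ 2 ≤ q ∧ 2 ≤ r ∧
    (1 : ℚ) / p + 1 / q + 1 / r < 1 ∧ x ^ p + y ^ q = z ^ r ∧ D ∣ x ^ p * y ^ q * z ^ r ∧ ((z ^ r : ℕ) : ℝ) ≤ (D : ℝ) ^ A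

/-- The theorem of Darmon and Granville for the equation `x ^ p + y ^ q = z ^ r` with fixed exponents. -/
def DarmonGranville : Prop :=
  ∀ p q r : ℕ, 2 ≤ p → 2 ≤ q → 2 ≤ r → (1 : ℚ) / p + 1 / q + 1 / r < 1 →
    {u : ℕ × ℕ × ℕ | 0 < u.1 ∧ 0 < u.2.1 ∧ 0 < u.2.2 ∧ Nat.gcd u.1 (Nat.gcd u.2.1 u.2.2) = 1 ∧
      u.1 ^ p + u.2.1 ^ q = u.2.2 ^ r}.Finite

/-- `z` is the third base of a coprime solution `x ^ p + y ^ p = z ^ r` with primes `p`, `r`, `2/p + 1/r ≤ 1`. -/
def ThirdBase (z : ℕ) : Prop :=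
  ∃ x y p r : ℕ, 0 < x ∧ 0 < y ∧ p.Prime ∧ r.Prime ∧ Nat.Coprime x y ∧ (1 : ℚ) / p + 1 / p + 1 / r ≤ 1 ∧
    x ^ p + y ^ p = z ^ r

/-- A positive multiplicative function of at most polynomial growth, at most `M p` at the large primes `p` and with different
values at different large primes. -/
structure Moderate (f : ℕ → ℕ) : Prop where
  mul : ∀ m n : ℕ, Nat.Coprime m n → f (m * n) = f m * f n
  pos : ∀ m : ℕ, 1 ≤ m → 1 ≤ f m
  growth : ∃ C D : ℕ, ∀ m : ℕ, 1 ≤ m → f m ≤ C * m ^ D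
  prime : ∃ P M : ℕ, ∀ p : ℕ, P ≤ p → p.Prime → f p ≤ M * p ∧ ∀ q : ℕ, P ≤ q → q.Prime → f q = f p → q = p

/-- The steps of `G` are at least a positive constant, and `G` grows at most like `v ^ d`, `d ≥ 1`. -/
structure Expanding (G : ℕ → ℝ) (d : ℝ) : Prop where
  one_le : 1 ≤ d
  step : ∃ a : ℝ, 0 < a ∧ ∀ v : ℕ, 1 ≤ v → a ≤ G (v + 1) - G v
  growth : ∃ C : ℝ, ∀ v : ℕ, 1 ≤ v → G v ≤ C * (v : ℝ) ^ d

open Classical in
/-- The proportion of the positive integers `m ≤ N` without the property `P` tends to `0`. -/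
def AlmostAll (P : ℕ → Prop) : Prop :=
  Tendsto (fun N : ℕ => (((Icc 1 N).filter (fun m => ¬ P m)).card : ℝ) / N) atTop (𝓝 0)

/-- the value of `f` at the `k`-th iterate of Euler's function -/
def orb (f : ℕ → ℕ) (k m : ℕ) : ℕ := f (Nat.totient^[k] m)

/-- For a suitable `K` tending to infinity, for almost all `m` and all `k ≤ K m`, no natural number within
`v ^ κ` of `G v`, `v = f (φ_k m)`, has the property `P`. -/
def Avoids (P : ℕ → Prop) (f : ℕ → ℕ) (G : ℕ → ℝ) (κ : ℝ) : Prop :=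
  ∃ K : ℕ → ℕ, Tendsto K atTop atTop ∧
    AlmostAll (fun m => ∀ k ≤ K m, ∀ D : ℕ, |(D : ℝ) - G (orb f k m)| ≤ (orb f k m : ℝ) ^ κ → ¬ P D)

/-- **Theorem.** (1) For all `A > 0`, `d ≥ 1` and `0 ≤ κ < 1` there is `R` such that for all admissible `f`, and `G` of growth
at most `v ^ d`, no integer within `v ^ κ` of `G v`, `v = f (φ_k m)`, `k ≤ K(m)`, has the property `Hit R A`, for almost all
`m`. (2) The same for `DividesSolution A`, if the theorem of Darmon and Granville is granted. (3) The same for `ThirdBase`, if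
`5 d / 6 + κ < 1`. (4) The identity, Euler's function and the sum of the divisors are examples of such functions `f`, and
`α v ^ d` with `α > 0`, `d ≥ 1` is an example of `G`. -/
theorem result :
    (∀ A d κ : ℝ, 0 < A → 1 ≤ d → 0 ≤ κ → κ < 1 → ∃ R : ℕ, 1 ≤ R ∧ ∀ f : ℕ → ℕ, Moderate f → ∀ G : ℕ → ℝ, Expanding G d →
      Avoids (Hit R A) f G κ) ∧
    (DarmonGranville → ∀ A d κ : ℝ, 0 < A → 1 ≤ d → 0 ≤ κ → κ < 1 → ∀ f : ℕ → ℕ, Moderate f → ∀ G : ℕ → ℝ, Expanding G d →
      Avoids (fun D => 1 ≤ D ∧ DividesSolution A D) f G κ) ∧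
    (∀ d κ : ℝ, 0 ≤ κ → 5 / 6 * d + κ < 1 → ∀ f : ℕ → ℕ, Moderate f → ∀ G : ℕ → ℝ, Expanding G d →
      Avoids ThirdBase f G κ) ∧
    (Moderate (fun m => m) ∧ Moderate Nat.totient ∧ Moderate (fun m => ∑ d ∈ m.divisors, d)) ∧
    ∀ α d : ℝ, 0 < α → 1 ≤ d → Expanding (fun v => α * (v : ℝ) ^ d) d := by
  refine ⟨fun A d κ hA hd hκ hκ1 => ?_, fun hDG A d κ hA hd hκ hκ1 f hf G hG => ?_, fun d κ hκ h1 f hf G hG => ?_,
    ?_, fun α d hα hd => ?_⟩
  · have hs : 0 < (1 - κ) / (2 * d) := div_pos (by linarith) (by linarith)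
    obtain ⟨R, hR, h⟩ := Run7.h430.TW.FC.hit_count hA hs
    refine ⟨R, hR, fun f hf G hG => ?_⟩
    obtain ⟨K, hK, h2⟩ := Pool.Agent.N760.IT.orbit_windows {D : ℕ | Pool.Agent.R437.FC.Hit R A D ∨ D ≤ 0}
      (fun D : ℕ => (D : ℝ)) (f := f) ⟨hf.mul, hf.pos, hf.growth, hf.prime⟩ (G := G) (d := d) ⟨hG.one_le, hG.step, hG.growth⟩
      (s := (1 - κ) / (2 * d)) (κ := κ) hs.le hκ (by
        have : d * ((1 - κ) / (2 * d)) = (1 - κ) / 2 := by
          field_simp
        linarith) (h 0)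
    refine ⟨K, hK, Pool.Agent.N826.IT.Orb.almostAll_mono h2 (fun m hm k hk D hD hH => ?_)⟩
    exact hm k hk D (Or.inl hH) hD
  · have hs : 0 < (1 - κ) / (2 * d) := div_pos (by linarith) (by linarith)
    obtain ⟨R, hR, h⟩ := Run7.h430.TW.FC.hit_count hA hs
    obtain ⟨B, hB⟩ := Run7.h430.TW.FC.divides_cases hDG R
    obtain ⟨K, hK, h2⟩ := Pool.Agent.N760.IT.orbit_windows {D : ℕ | Pool.Agent.R437.FC.Hit R A D ∨ D ≤ B}
      (fun D : ℕ => (D : ℝ)) (f := f) ⟨hf.mul, hf.pos, hf.growth, hf.prime⟩ (G := G) (d := d) ⟨hG.one_le, hG.step, hG.growth⟩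
      (s := (1 - κ) / (2 * d)) (κ := κ) hs.le hκ (by
        have : d * ((1 - κ) / (2 * d)) = (1 - κ) / 2 := by
          field_simp
        linarith) (h B)
    refine ⟨K, hK, Pool.Agent.N826.IT.Orb.almostAll_mono h2 (fun m hm k hk D hD hH => ?_)⟩
    exact hm k hk D (hB A D hH.1 hH.2) hD
  · obtain ⟨K, hK, h2⟩ := Pool.Agent.N760.IT.orbit_windows {z : ℕ | Run7.h430.TW.FC.ThirdBase z}
      (fun D : ℕ => (D : ℝ)) (f := f) ⟨hf.mul, hf.pos, hf.growth, hf.prime⟩ (G := G) (d := d) ⟨hG.one_le, hG.step, hG.growth⟩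
      (s := 5 / 6) (κ := κ) (by norm_num) hκ (by linarith) (fun ε hε => Run7.h430.TW.FC.base_count ε hε)
    refine ⟨K, hK, Pool.Agent.N826.IT.Orb.almostAll_mono h2 (fun m hm k hk D hD hH => ?_)⟩
    exact hm k hk D hH hD
  · exact ⟨⟨Pool.Agent.N760.IT.lm_id.mul, Pool.Agent.N760.IT.lm_id.pos, Pool.Agent.N760.IT.lm_id.growth,
        Pool.Agent.N760.IT.lm_id.prime⟩,
      ⟨Pool.Agent.N733.TG.lm_totient.mul, Pool.Agent.N733.TG.lm_totient.pos, Pool.Agent.N733.TG.lm_totient.growth,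
        Pool.Agent.N733.TG.lm_totient.prime⟩,
      ⟨Pool.Agent.N733.TG.lm_sigma.mul, Pool.Agent.N733.TG.lm_sigma.pos, Pool.Agent.N733.TG.lm_sigma.growth,
        Pool.Agent.N733.TG.lm_sigma.prime⟩⟩
  · obtain ⟨h1, h2, h3⟩ := Pool.Agent.N733.TG.expanding_pow hα hd
    exact ⟨h1, h2, h3⟩

end Pool.Agent.Results.MP_509488_nt.TotientOrbits
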